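import Pool.Agent.Helper72.Riesz.Hyp

/-!
# Positive definiteness of `exp (-v |x - y|)` on the sphere (module PD)
-/

set_option autoImplicit false
open MeasureTheory Set Filter Topology
open scoped ENNReal NNReal

namespace Helper23.Riesz

section generalities

lemma int_bdd {α : Type*} [MeasurableSpace α] {μ : Measure α} [IsFiniteMeasure μ] {f : α → ℝ}
    (hf : Measurable f) (C : ℝ) (hC : ∀ a, |f a| ≤ C) : Integrable f μ :=
  Integrable.of_bound hf.aestronglyMeasurable C
    (Filter.Eventually.of_forall fun a => by rw [Real.norm_eq_abs]; exact hC a)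

lemma avg2_eq_prod {d : ℕ} (hp : IsProbabilityMeasure (sig d)) {f : S d → S d → ℝ}
    (hf : Measurable fun p : S d × S d => f p.1 p.2) (C : ℝ) (hC : ∀ x y, |f x y| ≤ C) :
    avg2 f = ∫ p, f p.1 p.2 ∂((sig d).prod (sig d)) := by
  unfold avg2
  rw [integral_prod _ (int_bdd hf C fun p => hC p.1 p.2)]

end generalities

open Classical in
/-- indicator of being in the same cell -/
noncomputable def same {κ : Type*} (a b : κ) : ℝ := if a = b then 1 else 0

lemma same_abs_le {κ : Type*} (a b : κ) : |same a b| ≤ 1 := by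
  unfold same
  split_ifs <;> simp

lemma same_nonneg {κ : Type*} (a b : κ) : 0 ≤ same a b := by
  unfold same
  split_ifs <;> simp

lemma same_eq_sum {κ : Type*} [Fintype κ] (a b : κ) :
    same a b = ∑ c : κ, same a c * same b c := by
  classical
  unfold same
  by_cases h : a = b
  · subst h
    simp
  · rw [if_neg h]
    symm
    refine Finset.sum_eq_zero fun c _ => ?_
    by_cases h1 : a = c
    · have h2 : b ≠ c := fun h2 => h (h1.trans h2.symm)
      simp [h2]
    · simp [h1]

lemma measurable_same {α κ : Type*} [MeasurableSpace α] [Countable κ] [MeasurableSpace κ]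
    [MeasurableSingletonClass κ] {f g : α → κ} (hf : Measurable f) (hg : Measurable g) :
    Measurable fun a => same (f a) (g a) := by
  classical
  unfold same
  refine Measurable.ite ?_ measurable_const measurable_const
  have : {a | f a = g a} = ⋃ c : κ, (f ⁻¹' {c} ∩ g ⁻¹' {c}) := by
    ext a
    simp only [Set.mem_ofPred_eq, Set.mem_iUnion, Set.mem_inter_iff, Set.mem_preimage,
      Set.mem_singleton_iff]
    constructor
    · intro h
      exact ⟨f a, rfl, h.symm⟩
    · rintro ⟨c, h1, h2⟩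
      rw [h1, h2]
  rw [this]
  exact MeasurableSet.iUnion fun c =>
    (hf (measurableSet_singleton c)).inter (hg (measurableSet_singleton c))

/-- one partition, averaged over rotations -/
lemma partition_le {d : ℕ} (hp : IsProbabilityMeasure (sig d)) {Ω : Type} [MeasurableSpace Ω]
    (μ : Measure Ω) [IsProbabilityMeasure μ] (a : Ω → (E d ≃ₗᵢ[ℝ] E d))
    (ha : Measurable (fun p : Ω × S d => rot (a p.1) p.2))
    (hlaw : ∀ x : S d, μ.map (fun ω => rot (a ω) x) = sig d)
    {κ : Type*} [Fintype κ] [MeasurableSpace κ] [MeasurableSingletonClass κ]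
    (p : S d → κ) (hpm : Measurable p) (X : Finset (S d)) :
    (X.card : ℝ) ^ 2 * avg2 (fun x y : S d => same (p x) (p y)) ≤
      ∫ ω, ∑ x ∈ X, ∑ y ∈ X, same (p (rot (a ω) x)) (p (rot (a ω) y)) ∂μ := by
  have hax : ∀ x : S d, Measurable fun ω => rot (a ω) x := fun x =>
    ha.comp (measurable_id.prodMk measurable_const)
  have hcm : ∀ (c : κ), Measurable fun y : S d => same (p y) c := fun c =>
    measurable_same hpm measurable_const
  have hcmω : ∀ (c : κ) (x : S d), Measurable fun ω => same (p (rot (a ω) x)) c := fun c x =>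
    (hcm c).comp (hax x)
  set s : κ → ℝ := fun c => ∫ y, same (p y) c ∂(sig d) with hs
  have hsω : ∀ (c : κ) (x : S d), ∫ ω, same (p (rot (a ω) x)) c ∂μ = s c := by
    intro c x
    rw [hs]
    simp only
    rw [← hlaw x, integral_map (hax x).aemeasurable (hcm c).aestronglyMeasurable]
  -- average over the sphere
  have h1 : avg2 (fun x y : S d => same (p x) (p y)) = ∑ c, s c ^ 2 := by
    unfold avg2
    have h2 : ∀ x : S d, ∫ y, same (p x) (p y) ∂(sig d) = ∑ c, same (p x) c * s c := by
      intro x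
      have h3 : (fun y : S d => same (p x) (p y)) = fun y => ∑ c, same (p x) c * same (p y) c := by
        funext y
        exact same_eq_sum _ _
      rw [h3, integral_finsetSum]
      · refine Finset.sum_congr rfl fun c _ => ?_
        rw [integral_const_mul]
      · intro c _
        exact (int_bdd (hcm c) 1 fun y => same_abs_le _ _).const_mul _
    simp_rw [h2]
    rw [integral_finsetSum]
    · refine Finset.sum_congr rfl fun c _ => ?_
      rw [integral_mul_const, sq]
    · intro c _
      exact (int_bdd (hcm c) 1 fun y => same_abs_le _ _).mul_const _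
  set n : κ → Ω → ℝ := fun c ω => ∑ x ∈ X, same (p (rot (a ω) x)) c with hn
  have hnm : ∀ c, Measurable (n c) := fun c => Finset.measurable_sum _ fun x _ => hcmω c x
  have hnint : ∀ c, Integrable (n c) μ := fun c =>
    integrable_finsetSum _ fun x _ => int_bdd (hcmω c x) 1 fun ω => same_abs_le _ _
  have hnval : ∀ c, ∫ ω, n c ω ∂μ = X.card * s c := by
    intro c
    simp only [hn]
    rw [integral_finsetSum _ fun x _ => int_bdd (hcmω c x) 1 fun ω => same_abs_le _ _]
    simp_rw [hsω]
    simp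
  have h4 : ∀ ω, ∑ x ∈ X, ∑ y ∈ X, same (p (rot (a ω) x)) (p (rot (a ω) y)) =
      ∑ c, n c ω ^ 2 := by
    intro ω
    have e1 : ∀ x ∈ X, ∑ y ∈ X, same (p (rot (a ω) x)) (p (rot (a ω) y)) =
        ∑ c, ∑ y ∈ X, same (p (rot (a ω) x)) c * same (p (rot (a ω) y)) c := by
      intro x _
      rw [Finset.sum_comm]
      exact Finset.sum_congr rfl fun y _ => same_eq_sum _ _
    rw [Finset.sum_congr rfl e1, Finset.sum_comm]
    refine Finset.sum_congr rfl fun c _ => ?_
    simp only [hn, sq, Finset.sum_mul_sum]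
  have h5 : (X.card : ℝ) ^ 2 * ∑ c, s c ^ 2 =
      ∫ ω, ∑ c, (2 * (X.card * s c) * n c ω - (X.card * s c) ^ 2) ∂μ := by
    have e2 : ∀ c : κ, Integrable (fun ω => 2 * (X.card * s c) * n c ω - (X.card * s c) ^ 2) μ :=
      fun c => ((hnint c).const_mul _).sub (integrable_const _)
    rw [integral_finsetSum _ fun c _ => e2 c]
    rw [Finset.mul_sum]
    refine Finset.sum_congr rfl fun c _ => ?_
    rw [integral_sub ((hnint c).const_mul _) (integrable_const _), integral_const_mul, hnval,
      integral_const]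
    simp
    ring
  rw [h1, h5]
  simp_rw [h4]
  refine integral_mono ?_ ?_ ?_
  · exact integrable_finsetSum _ fun c _ => ((hnint c).const_mul _).sub (integrable_const _)
  · refine int_bdd (Finset.measurable_sum _ fun c _ => (hnm c).pow_const 2)
      (∑ c : κ, (X.card : ℝ) ^ 2) fun ω => ?_
    have h6 : ∀ c, |n c ω| ≤ X.card := by
      intro c
      simp only [hn]
      calc |∑ x ∈ X, same (p (rot (a ω) x)) c| ≤ ∑ x ∈ X, |same (p (rot (a ω) x)) c| :=
            Finset.abs_sum_le_sum_abs _ _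
        _ ≤ ∑ x ∈ X, (1:ℝ) := Finset.sum_le_sum fun x _ => same_abs_le _ _
        _ = X.card := by simp
    rw [abs_of_nonneg (Finset.sum_nonneg fun c _ => sq_nonneg _)]
    refine Finset.sum_le_sum fun c _ => ?_
    rw [← sq_abs]
    exact pow_le_pow_left₀ (abs_nonneg _) (h6 c) 2
  · intro ω
    refine Finset.sum_le_sum fun c _ => ?_
    nlinarith [sq_nonneg (n c ω - X.card * s c)]

lemma dist_rot_PD {d : ℕ} (g : E d ≃ₗᵢ[ℝ] E d) (x y : S d) : dist (rot g x) (rot g y) = dist x y := by
  rw [Subtype.dist_eq, Subtype.dist_eq]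
  exact g.dist_map _ _

lemma one_sub_mem {d : ℕ} {c : ℝ} (hc0 : 0 < c) (hc1 : c ≤ 1/2) (x y : S d) :
    0 ≤ 1 - c * dist x y ∧ 1 - c * dist x y ≤ 1 := by
  have h1 := dist_le_two x y
  have h2 : 0 ≤ dist x y := dist_nonneg
  constructor
  · nlinarith
  · nlinarith

/-- powers of `1 - c |x-y|` are positive definite -/
lemma pow_pd_of {d : ℕ} (hp : IsProbabilityMeasure (sig d))
    (hrot : ∀ g : E d ≃ₗᵢ[ℝ] E d, MeasurePreserving (rot g) (sig d) (sig d))
    (hex : ∀ x y : S d, ∃ g : E d ≃ₗᵢ[ℝ] E d, rot g x = y)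
    (hhaar : ∃ (Ω : Type) (_ : MeasurableSpace Ω) (μ : Measure Ω)
      (a : Ω → (E d ≃ₗᵢ[ℝ] E d)), IsProbabilityMeasure μ ∧
      Measurable (fun p : Ω × S d => rot (a p.1) p.2) ∧
      ∀ x : S d, μ.map (fun ω => rot (a ω) x) = sig d) :
    ∃ c : ℝ, 0 < c ∧ c ≤ 1/2 ∧ ∀ (m : ℕ) (X : Finset (S d)),
      (X.card : ℝ) ^ 2 * avg2 (fun x y : S d => (1 - c * dist x y) ^ m) ≤
        ∑ x ∈ X, ∑ y ∈ X, (1 - c * dist x y) ^ m := by
  obtain ⟨c, hc0, hc1, hpow⟩ := hyp_pow_of d hp hrot hex
  obtain ⟨Ω, mΩ, μ, a, hμ, ha, hlaw⟩ := hhaar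
  refine ⟨c, hc0, hc1, fun m X => ?_⟩
  obtain ⟨Ω', mΩ', ν, cell, hν, hcell, hprob⟩ := hpow m
  have hax : ∀ x : S d, Measurable fun ω => rot (a ω) x := fun x =>
    ha.comp (measurable_id.prodMk measurable_const)
  have hcx : ∀ ω' : Ω', Measurable (cell ω') := fun ω' =>
    hcell.comp (measurable_const.prodMk measurable_id)
  have hcw : ∀ x : S d, Measurable fun ω' => cell ω' x := fun x =>
    hcell.comp (measurable_id.prodMk measurable_const)
  have hintsame : ∀ x y : S d, ∫ ω', same (cell ω' x) (cell ω' y) ∂ν = (1 - c * dist x y) ^ m := by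
    classical
    intro x y
    rw [← hprob x y]
    have hms : MeasurableSet {ω' | cell ω' x = cell ω' y} := by
      have h0 := measurable_same (hcw x) (hcw y)
      have h1 : {ω' | cell ω' x = cell ω' y} =
          (fun ω' => same (cell ω' x) (cell ω' y)) ⁻¹' {1} := by
        ext ω'
        simp [same]
      rw [h1]
      exact h0 (measurableSet_singleton 1)
    rw [← integral_indicator_one hms]
    refine integral_congr_ae (Filter.Eventually.of_forall fun ω' => ?_)
    simp [same, Set.indicator_apply]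
  -- measurability of the joint functions
  have hm1 : Measurable fun q : Ω' × (S d × S d) => same (cell q.1 q.2.1) (cell q.1 q.2.2) := by
    refine measurable_same ?_ ?_
    · exact hcell.comp (measurable_fst.prodMk (measurable_fst.comp measurable_snd))
    · exact hcell.comp (measurable_fst.prodMk (measurable_snd.comp measurable_snd))
  have hm2 : Measurable fun q : Ω' × Ω => ∑ x ∈ X, ∑ y ∈ X,
      same (cell q.1 (rot (a q.2) x)) (cell q.1 (rot (a q.2) y)) := by
    refine Finset.measurable_sum _ fun x _ => Finset.measurable_sum _ fun y _ => ?_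
    refine measurable_same ?_ ?_
    · exact hcell.comp (measurable_fst.prodMk ((hax x).comp measurable_snd))
    · exact hcell.comp (measurable_fst.prodMk ((hax y).comp measurable_snd))
  have hb2 : ∀ q : Ω' × Ω, |∑ x ∈ X, ∑ y ∈ X,
      same (cell q.1 (rot (a q.2) x)) (cell q.1 (rot (a q.2) y))| ≤ (X.card : ℝ) * X.card := by
    intro q
    calc |∑ x ∈ X, ∑ y ∈ X, same (cell q.1 (rot (a q.2) x)) (cell q.1 (rot (a q.2) y))|
        ≤ ∑ x ∈ X, |∑ y ∈ X, same (cell q.1 (rot (a q.2) x)) (cell q.1 (rot (a q.2) y))| :=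
          Finset.abs_sum_le_sum_abs _ _
      _ ≤ ∑ x ∈ X, (X.card : ℝ) := by
          refine Finset.sum_le_sum fun x _ => ?_
          calc |∑ y ∈ X, same (cell q.1 (rot (a q.2) x)) (cell q.1 (rot (a q.2) y))|
              ≤ ∑ y ∈ X, |same (cell q.1 (rot (a q.2) x)) (cell q.1 (rot (a q.2) y))| :=
                Finset.abs_sum_le_sum_abs _ _
            _ ≤ ∑ y ∈ X, (1:ℝ) := Finset.sum_le_sum fun y _ => same_abs_le _ _
            _ = X.card := by simp
      _ = (X.card : ℝ) * X.card := by simp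
  have hi1 : Integrable (fun q : Ω' × (S d × S d) => same (cell q.1 q.2.1) (cell q.1 q.2.2))
      (ν.prod ((sig d).prod (sig d))) := int_bdd hm1 1 fun q => same_abs_le _ _
  have hi2 : Integrable (fun q : Ω' × Ω => ∑ x ∈ X, ∑ y ∈ X,
      same (cell q.1 (rot (a q.2) x)) (cell q.1 (rot (a q.2) y))) (ν.prod μ) :=
    int_bdd hm2 _ hb2
  -- left-hand side
  have hL : avg2 (fun x y : S d => (1 - c * dist x y) ^ m) =
      ∫ ω', avg2 (fun x y : S d => same (cell ω' x) (cell ω' y)) ∂ν := by
    have e1 : ∀ ω', avg2 (fun x y : S d => same (cell ω' x) (cell ω' y)) =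
        ∫ p, same (cell ω' p.1) (cell ω' p.2) ∂((sig d).prod (sig d)) := by
      intro ω'
      refine avg2_eq_prod hp ?_ 1 fun x y => same_abs_le _ _
      exact measurable_same ((hcx ω').comp measurable_fst) ((hcx ω').comp measurable_snd)
    simp_rw [e1]
    rw [integral_integral_swap hi1]
    simp_rw [hintsame]
    refine avg2_eq_prod hp ?_ 1 fun x y => ?_
    · exact ((measurable_const.sub (measurable_const.mul measurable_dist)).pow_const m)
    · obtain ⟨h1, h2⟩ := one_sub_mem hc0 hc1 x y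
      rw [abs_of_nonneg (pow_nonneg h1 m)]
      exact pow_le_one₀ h1 h2
  have hR : ∑ x ∈ X, ∑ y ∈ X, (1 - c * dist x y) ^ m =
      ∫ ω', ∫ ω, ∑ x ∈ X, ∑ y ∈ X,
        same (cell ω' (rot (a ω) x)) (cell ω' (rot (a ω) y)) ∂μ ∂ν := by
    rw [integral_integral_swap hi2]
    have e2 : ∀ ω : Ω, ∫ ω', ∑ x ∈ X, ∑ y ∈ X,
        same (cell ω' (rot (a ω) x)) (cell ω' (rot (a ω) y)) ∂ν =
        ∑ x ∈ X, ∑ y ∈ X, (1 - c * dist x y) ^ m := by
      intro ω
      have hi3 : ∀ x y : S d, Integrable (fun ω' =>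
          same (cell ω' (rot (a ω) x)) (cell ω' (rot (a ω) y))) ν := fun x y =>
        int_bdd (measurable_same (hcw _) (hcw _)) 1 fun _ => same_abs_le _ _
      rw [integral_finsetSum _ fun x _ => integrable_finsetSum _ fun y _ => hi3 x y]
      refine Finset.sum_congr rfl fun x _ => ?_
      rw [integral_finsetSum _ fun y _ => hi3 x y]
      refine Finset.sum_congr rfl fun y _ => ?_
      rw [hintsame, dist_rot_PD]
    simp_rw [e2]
    simp
  rw [hL, hR, ← integral_const_mul]
  refine integral_mono ?_ hi2.integral_prod_left ?_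
  · refine Integrable.const_mul ?_ _
    have e1 : ∀ ω', avg2 (fun x y : S d => same (cell ω' x) (cell ω' y)) =
        ∫ p, same (cell ω' p.1) (cell ω' p.2) ∂((sig d).prod (sig d)) := by
      intro ω'
      refine avg2_eq_prod hp ?_ 1 fun x y => same_abs_le _ _
      exact measurable_same ((hcx ω').comp measurable_fst) ((hcx ω').comp measurable_snd)
    simp_rw [e1]
    exact hi1.integral_prod_left
  · intro ω'
    exact partition_le hp μ a ha hlaw (cell ω') (hcx ω') X

/-- `exp (-v |x-y|)` is positive definite in the averaged sense -/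
theorem exp_pd_of {d : ℕ} (hp : IsProbabilityMeasure (sig d))
    (hrot : ∀ g : E d ≃ₗᵢ[ℝ] E d, MeasurePreserving (rot g) (sig d) (sig d))
    (hex : ∀ x y : S d, ∃ g : E d ≃ₗᵢ[ℝ] E d, rot g x = y)
    (hhaar : ∃ (Ω : Type) (_ : MeasurableSpace Ω) (μ : Measure Ω)
      (a : Ω → (E d ≃ₗᵢ[ℝ] E d)), IsProbabilityMeasure μ ∧
      Measurable (fun p : Ω × S d => rot (a p.1) p.2) ∧
      ∀ x : S d, μ.map (fun ω => rot (a ω) x) = sig d)
    (v : ℝ) (hv : 0 ≤ v) (X : Finset (S d)) :
    (X.card : ℝ) ^ 2 * avg2 (fun x y : S d => Real.exp (-v * dist x y)) ≤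
      ∑ x ∈ X, ∑ y ∈ X, Real.exp (-v * dist x y) := by
  obtain ⟨c, hc0, hc1, hpd⟩ := pow_pd_of hp hrot hex hhaar
  set w : ℝ := v / c with hw
  have hw0 : 0 ≤ w := div_nonneg hv hc0.le
  set P : ℕ → S d → S d → ℝ := fun M x y =>
    ∑ m ∈ Finset.range M, (Real.exp (-w) * (w ^ m / m.factorial)) * (1 - c * dist x y) ^ m with hP
  have hcoef : ∀ m : ℕ, 0 ≤ Real.exp (-w) * (w ^ m / m.factorial) := fun m => by positivity
  have hexp : ∀ x y : S d, HasSum (fun m : ℕ =>
      (Real.exp (-w) * (w ^ m / m.factorial)) * (1 - c * dist x y) ^ m)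
      (Real.exp (-v * dist x y)) := by
    intro x y
    have h1 := NormedSpace.expSeries_div_hasSum_exp (𝔸 := ℝ) (w * (1 - c * dist x y))
    have h2 : Real.exp (-v * dist x y) =
        Real.exp (-w) * NormedSpace.exp (w * (1 - c * dist x y)) := by
      rw [← Real.exp_eq_exp_ℝ, ← Real.exp_add]
      congr 1
      rw [hw]
      field_simp
      ring
    rw [h2]
    have h3 := h1.mul_left (Real.exp (-w))
    have h4 : (fun m : ℕ => (Real.exp (-w) * (w ^ m / m.factorial)) * (1 - c * dist x y) ^ m) =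
        fun m : ℕ => Real.exp (-w) * ((w * (1 - c * dist x y)) ^ m / m.factorial) := by
      funext m
      rw [mul_pow]
      ring
    rw [h4]
    exact h3
  have hPm : ∀ M, Measurable fun q : S d × S d => P M q.1 q.2 := by
    intro M
    refine Finset.measurable_sum _ fun m _ => ?_
    exact ((measurable_const.sub (measurable_const.mul measurable_dist)).pow_const m).const_mul _
  have hP0 : ∀ M x y, 0 ≤ P M x y := fun M x y =>
    Finset.sum_nonneg fun m _ => mul_nonneg (hcoef m) (pow_nonneg (one_sub_mem hc0 hc1 x y).1 m)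
  have hPle : ∀ M x y, P M x y ≤ Real.exp (-v * dist x y) := fun M x y =>
    sum_le_hasSum (Finset.range M) (fun m _ =>
      mul_nonneg (hcoef m) (pow_nonneg (one_sub_mem hc0 hc1 x y).1 m)) (hexp x y)
  have hP1 : ∀ M x y, |P M x y| ≤ 1 := by
    intro M x y
    rw [abs_of_nonneg (hP0 M x y)]
    refine le_trans (hPle M x y) ?_
    rw [Real.exp_le_one_iff]
    have : 0 ≤ v * dist x y := mul_nonneg hv dist_nonneg
    linarith
  have hPmono : ∀ M, (X.card : ℝ) ^ 2 * avg2 (P M) ≤ ∑ x ∈ X, ∑ y ∈ X, P M x y := by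
    intro M
    have hterm : ∀ m : ℕ, Measurable fun q : S d × S d => (1 - c * dist q.1 q.2) ^ m := fun m =>
      (measurable_const.sub (measurable_const.mul measurable_dist)).pow_const m
    have hterm1 : ∀ (m : ℕ) (x y : S d), |(1 - c * dist x y) ^ m| ≤ 1 := by
      intro m x y
      obtain ⟨h1, h2⟩ := one_sub_mem hc0 hc1 x y
      rw [abs_of_nonneg (pow_nonneg h1 m)]
      exact pow_le_one₀ h1 h2
    have e1 : avg2 (P M) = ∑ m ∈ Finset.range M, (Real.exp (-w) * (w ^ m / m.factorial)) *
        avg2 (fun x y : S d => (1 - c * dist x y) ^ m) := by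
      rw [avg2_eq_prod hp (hPm M) 1 (hP1 M)]
      simp only [hP]
      rw [integral_finsetSum]
      · refine Finset.sum_congr rfl fun m _ => ?_
        rw [integral_const_mul, avg2_eq_prod hp (hterm m) 1 (hterm1 m)]
      · intro m _
        exact (int_bdd (hterm m) 1 fun q => hterm1 m q.1 q.2).const_mul _
    have e2 : ∑ x ∈ X, ∑ y ∈ X, P M x y =
        ∑ m ∈ Finset.range M, (Real.exp (-w) * (w ^ m / m.factorial)) *
          ∑ x ∈ X, ∑ y ∈ X, (1 - c * dist x y) ^ m := by
      simp only [hP, Finset.mul_sum]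
      have e3 : ∀ x ∈ X, ∑ y ∈ X, ∑ m ∈ Finset.range M,
          (Real.exp (-w) * (w ^ m / m.factorial)) * (1 - c * dist x y) ^ m =
          ∑ m ∈ Finset.range M, ∑ y ∈ X,
            (Real.exp (-w) * (w ^ m / m.factorial)) * (1 - c * dist x y) ^ m := fun x _ =>
        Finset.sum_comm
      rw [Finset.sum_congr rfl e3, Finset.sum_comm]
    rw [e1, e2, Finset.mul_sum]
    refine Finset.sum_le_sum fun m _ => ?_
    calc (X.card : ℝ) ^ 2 * ((Real.exp (-w) * (w ^ m / m.factorial)) *
          avg2 (fun x y : S d => (1 - c * dist x y) ^ m))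
        = (Real.exp (-w) * (w ^ m / m.factorial)) * ((X.card : ℝ) ^ 2 *
          avg2 (fun x y : S d => (1 - c * dist x y) ^ m)) := by ring
      _ ≤ _ := mul_le_mul_of_nonneg_left (hpd m X) (hcoef m)
  have hlim1 : Tendsto (fun M => ∑ x ∈ X, ∑ y ∈ X, P M x y) atTop
      (𝓝 (∑ x ∈ X, ∑ y ∈ X, Real.exp (-v * dist x y))) :=
    tendsto_finsetSum _ fun x _ => tendsto_finsetSum _ fun y _ =>
      (hexp x y).tendsto_sum_nat
  have hexpm : Measurable fun q : S d × S d => Real.exp (-v * dist q.1 q.2) :=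
    (measurable_dist.const_mul _).exp
  have hexp1 : ∀ x y : S d, |Real.exp (-v * dist x y)| ≤ 1 := by
    intro x y
    rw [abs_of_nonneg (Real.exp_nonneg _), Real.exp_le_one_iff]
    have : 0 ≤ v * dist x y := mul_nonneg hv dist_nonneg
    linarith
  have hlim2 : Tendsto (fun M => avg2 (P M)) atTop
      (𝓝 (avg2 (fun x y : S d => Real.exp (-v * dist x y)))) := by
    rw [avg2_eq_prod hp hexpm 1 hexp1]
    have : (fun M => avg2 (P M)) = fun M => ∫ q, P M q.1 q.2 ∂((sig d).prod (sig d)) := by
      funext M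
      exact avg2_eq_prod hp (hPm M) 1 (hP1 M)
    rw [this]
    refine tendsto_integral_of_dominated_convergence (fun _ => (1:ℝ))
      (fun M => (hPm M).aestronglyMeasurable) (integrable_const _) ?_ ?_
    · intro M
      exact Filter.Eventually.of_forall fun q => by
        rw [Real.norm_eq_abs]; exact hP1 M q.1 q.2
    · exact Filter.Eventually.of_forall fun q => (hexp q.1 q.2).tendsto_sum_nat
  exact le_of_tendsto_of_tendsto' (hlim2.const_mul _) hlim1 hPmono

end Helper23.Riesz
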