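import Pool.Agent.Helper27.Riesz.Haar
import Pool.Agent.Helper72.Riesz.PD

/-!
# Modules HYP and PD without hypotheses
-/

set_option autoImplicit false
open MeasureTheory Set Filter Topology
open scoped ENNReal NNReal

namespace Helper23.Riesz

theorem hyp (d : ℕ) : ∃ c : ℝ, 0 < c ∧ c ≤ 1/2 ∧ ∃ (Ω : Type) (_ : MeasurableSpace Ω) (μ : Measure Ω)
    (side : Ω → S d → Bool), IsProbabilityMeasure μ ∧
      Measurable (fun p : Ω × S d => side p.1 p.2) ∧
      ∀ x y : S d, μ.real {ω | side ω x = side ω y} = 1 - c * dist x y :=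
  hyp_of d (isProbabilityMeasure_sig d) rot_mp exists_rot

theorem hyp_pow (d : ℕ) : ∃ c : ℝ, 0 < c ∧ c ≤ 1/2 ∧ ∀ m : ℕ, ∃ (Ω : Type) (_ : MeasurableSpace Ω)
    (μ : Measure Ω) (cell : Ω → S d → (Fin m → Bool)), IsProbabilityMeasure μ ∧
      Measurable (fun p : Ω × S d => cell p.1 p.2) ∧
      ∀ x y : S d, μ.real {ω | cell ω x = cell ω y} = (1 - c * dist x y) ^ m :=
  hyp_pow_of d (isProbabilityMeasure_sig d) rot_mp exists_rot

theorem exp_pd {d : ℕ} (v : ℝ) (hv : 0 ≤ v) (X : Finset (S d)) :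
    (X.card : ℝ) ^ 2 * avg2 (fun x y : S d => Real.exp (-v * dist x y)) ≤
      ∑ x ∈ X, ∑ y ∈ X, Real.exp (-v * dist x y) :=
  exp_pd_of (isProbabilityMeasure_sig d) rot_mp exists_rot (exists_haar d) v hv X

end Helper23.Riesz
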