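import Pool.Agent.Helper23.Riesz.Defs

/-!
# Random hyperplanes on the sphere (module HYP)
-/

set_option autoImplicit false
open MeasureTheory Set Filter Topology
open scoped ENNReal NNReal

namespace Helper23.Riesz

/-- the mean absolute projection of a vector on a random direction -/
noncomputable def mproj (d : ℕ) (z : E d) : ℝ := ∫ u : S d, |inner ℝ (u : E d) z| ∂(sig d)

section mprojsec

variable {d : ℕ}

lemma continuous_absinner (z : E d) : Continuous fun u : S d => |inner ℝ (u : E d) z| := by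
  fun_prop

lemma absinner_le (z : E d) (u : S d) : |inner ℝ (u : E d) z| ≤ ‖z‖ := by
  have h1 : ‖(u : E d)‖ = 1 := by simp
  calc |inner ℝ (u : E d) z| ≤ ‖(u : E d)‖ * ‖z‖ := abs_real_inner_le_norm _ _
    _ = ‖z‖ := by rw [h1, one_mul]

lemma integrable_absinner [IsProbabilityMeasure (sig d)] (z : E d) :
    Integrable (fun u : S d => |inner ℝ (u : E d) z|) (sig d) := by
  refine Integrable.of_bound (continuous_absinner z).aestronglyMeasurable ‖z‖ ?_
  refine Filter.Eventually.of_forall fun u => ?_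
  rw [Real.norm_eq_abs, abs_abs]
  exact absinner_le z u

lemma mproj_rot (hrot : ∀ g : E d ≃ₗᵢ[ℝ] E d, MeasurePreserving (rot g) (sig d) (sig d))
    (g : E d ≃ₗᵢ[ℝ] E d) (z : E d) : mproj d (g z) = mproj d z := by
  unfold mproj
  have h1 := (hrot g).map_eq
  conv_lhs => rw [← h1]
  rw [integral_map (hrot g).measurable.aemeasurable
    (continuous_absinner (g z)).aestronglyMeasurable]
  refine integral_congr_ae (Filter.Eventually.of_forall fun u => ?_)
  simp only [rot]
  rw [g.inner_map_map]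

lemma mproj_smul (t : ℝ) (z : E d) : mproj d (t • z) = |t| * mproj d z := by
  unfold mproj
  rw [← integral_const_mul]
  refine integral_congr_ae (Filter.Eventually.of_forall fun u => ?_)
  simp only [inner_smul_right, abs_mul]

lemma mproj_unit (hrot : ∀ g : E d ≃ₗᵢ[ℝ] E d, MeasurePreserving (rot g) (sig d) (sig d))
    (hex : ∀ x y : S d, ∃ g : E d ≃ₗᵢ[ℝ] E d, rot g x = y) (x y : S d) :
    mproj d (x : E d) = mproj d (y : E d) := by
  obtain ⟨g, hg⟩ := hex x y
  have : (g (x : E d)) = (y : E d) := congrArg Subtype.val hg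
  rw [← this, mproj_rot hrot]

lemma mproj_eq (hrot : ∀ g : E d ≃ₗᵢ[ℝ] E d, MeasurePreserving (rot g) (sig d) (sig d))
    (hex : ∀ x y : S d, ∃ g : E d ≃ₗᵢ[ℝ] E d, rot g x = y) (e : S d) (z : E d) :
    mproj d z = ‖z‖ * mproj d (e : E d) := by
  by_cases hz : z = 0
  · subst hz; simp [mproj]
  · have hz' : ‖z‖ ≠ 0 := by simpa using hz
    have h1 : ‖(‖z‖⁻¹ • z : E d)‖ = 1 := by
      rw [norm_smul, norm_inv, norm_norm, inv_mul_cancel₀ hz']
    have h2 : z = ‖z‖ • (‖z‖⁻¹ • z) := by
      rw [smul_smul, mul_inv_cancel₀ hz', one_smul]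
    let w : S d := ⟨‖z‖⁻¹ • z, by simpa using h1⟩
    calc mproj d z = mproj d (‖z‖ • (w : E d)) := by rw [← h2]
      _ = |‖z‖| * mproj d (w : E d) := mproj_smul _ _
      _ = ‖z‖ * mproj d (e : E d) := by rw [abs_of_nonneg (norm_nonneg _), mproj_unit hrot hex w e]

/-- a basis vector as a point of the sphere -/
noncomputable def bas (d : ℕ) (i : Fin (d+1)) : S d :=
  ⟨EuclideanSpace.single i (1:ℝ), by simp⟩

lemma mproj_pos (hp : IsProbabilityMeasure (sig d))
    (hrot : ∀ g : E d ≃ₗᵢ[ℝ] E d, MeasurePreserving (rot g) (sig d) (sig d))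
    (hex : ∀ x y : S d, ∃ g : E d ≃ₗᵢ[ℝ] E d, rot g x = y) :
    0 < mproj d (bas d 0 : E d) := by
  have h1 : (1:ℝ) ≤ ∑ i : Fin (d+1), mproj d (bas d i : E d) := by
    unfold mproj
    rw [← integral_finsetSum _ fun i _ => integrable_absinner _]
    calc (1:ℝ) = ∫ _u : S d, (1:ℝ) ∂(sig d) := by simp
      _ ≤ _ := by
        refine integral_mono (integrable_const _)
          (integrable_finsetSum _ fun i _ => integrable_absinner _) fun u => ?_
        have hu : ‖(u : E d)‖ = 1 := by simp
        have h2 : ∑ i : Fin (d+1), ((u : E d) i) ^ 2 = 1 := by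
          have := EuclideanSpace.norm_sq_eq (u : E d)
          rw [hu] at this
          simpa using this.symm
        have h3 : ∀ i : Fin (d+1), |(u : E d) i| ≤ 1 := by
          intro i
          have h4 : ((u : E d) i) ^ 2 ≤ 1 := by
            refine le_trans ?_ h2.le
            exact Finset.single_le_sum (f := fun i => ((u : E d) i) ^ 2)
              (fun j _ => sq_nonneg _) (Finset.mem_univ i)
          exact abs_le_one_iff_mul_self_le_one.mpr (by nlinarith)
        calc (1:ℝ) = ∑ i : Fin (d+1), ((u : E d) i) ^ 2 := h2.symm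
          _ ≤ ∑ i : Fin (d+1), |inner ℝ (u : E d) (bas d i : E d)| := by
            refine Finset.sum_le_sum fun i _ => ?_
            have h5 : inner ℝ (u : E d) (bas d i : E d) = (u : E d) i := by
              simp [bas, EuclideanSpace.inner_single_right]
            rw [h5, ← sq_abs]
            nlinarith [h3 i, abs_nonneg ((u : E d) i)]
  have h2 : ∑ i : Fin (d+1), mproj d (bas d i : E d) = (d+1) * mproj d (bas d 0 : E d) := by
    rw [Finset.sum_congr rfl fun i _ => mproj_unit hrot hex (bas d i) (bas d 0)]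
    simp
  rw [h2] at h1
  by_contra hcon
  push Not at hcon
  have : ((d:ℝ)+1) * mproj d (bas d 0 : E d) ≤ 0 :=
    mul_nonpos_of_nonneg_of_nonpos (by positivity) hcon
  linarith

lemma mproj_le (hp : IsProbabilityMeasure (sig d)) (x : S d) : mproj d (x : E d) ≤ 1 := by
  unfold mproj
  calc ∫ u : S d, |inner ℝ (u : E d) (x : E d)| ∂(sig d) ≤ ∫ _u : S d, (1:ℝ) ∂(sig d) := by
        refine integral_mono (integrable_absinner _) (integrable_const _) fun u => ?_
        have := absinner_le (x : E d) u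
        simpa using this
    _ = 1 := by simp

end mprojsec

/-- the uniform distribution on `[-1,1]` -/
noncomputable def uni : Measure ℝ := (2:ℝ≥0∞)⁻¹ • (volume.restrict (Icc (-1:ℝ) 1))

instance : IsProbabilityMeasure uni := by
  constructor
  unfold uni
  rw [Measure.smul_apply, Measure.restrict_apply_univ, Real.volume_Icc]
  norm_num
  exact ENNReal.inv_mul_cancel (by norm_num) (by norm_num)

open Classical in
/-- the side of the affine hyperplane `⟨u, ·⟩ = τ` -/
noncomputable def hside {d : ℕ} (p : S d × ℝ) (x : S d) : Bool :=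
  decide (inner ℝ (p.1 : E d) (x : E d) < p.2)

lemma measurable_hside {d : ℕ} : Measurable (fun p : (S d × ℝ) × S d => hside p.1 p.2) := by
  classical
  have h1 : Continuous fun p : (S d × ℝ) × S d => inner ℝ (p.1.1 : E d) (p.2 : E d) := by
    fun_prop
  have h2 : MeasurableSet {p : (S d × ℝ) × S d | inner ℝ (p.1.1 : E d) (p.2 : E d) < p.1.2} :=
    measurableSet_lt h1.measurable (by fun_prop)
  refine measurable_to_bool ?_
  convert h2 using 1
  ext p
  simp [hside]

lemma hside_ne_iff {d : ℕ} (u : S d) (τ : ℝ) (x y : S d) :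
    hside (u, τ) x ≠ hside (u, τ) y ↔
      τ ∈ Set.uIoc (inner ℝ (u : E d) (x : E d)) (inner ℝ (u : E d) (y : E d)) := by
  classical
  simp only [hside, ne_eq, decide_eq_decide, Set.mem_uIoc]
  constructor
  · intro h
    by_cases h1 : inner ℝ (u : E d) (x : E d) < τ
    · left
      refine ⟨h1, ?_⟩
      by_contra h2
      push Not at h2
      exact h ⟨fun _ => h2, fun _ => h1⟩
    · right
      push Not at h1
      refine ⟨?_, h1⟩
      by_contra h2
      exact h ⟨fun h3 => absurd h3 (not_lt.mpr h1), fun h3 => absurd h3 h2⟩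
  · rintro (⟨h1, h2⟩ | ⟨h1, h2⟩) h
    · exact absurd (h.mp h1) (not_lt.mpr h2)
    · exact absurd (h.mpr h1) (not_lt.mpr h2)

lemma inner_mem_Icc {d : ℕ} (u x : S d) : inner ℝ (u : E d) (x : E d) ∈ Icc (-1:ℝ) 1 := by
  have := absinner_le (x : E d) u
  have h2 : ‖(x : E d)‖ = 1 := by simp
  rw [h2] at this
  exact abs_le.mp this

lemma uni_uIoc {a b : ℝ} (ha : a ∈ Icc (-1:ℝ) 1) (hb : b ∈ Icc (-1:ℝ) 1) :
    uni (Set.uIoc a b) = ENNReal.ofReal (|b - a| / 2) := by
  unfold uni
  rw [Measure.smul_apply, Measure.restrict_apply measurableSet_uIoc]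
  have h1 : Set.uIoc a b ∩ Icc (-1:ℝ) 1 = Set.uIoc a b := by
    refine Set.inter_eq_left.mpr ?_
    intro t ht
    rw [Set.mem_uIoc] at ht
    rcases ht with ⟨h1, h2⟩ | ⟨h1, h2⟩
    · exact ⟨le_trans ha.1 h1.le, le_trans h2 hb.2⟩
    · exact ⟨le_trans hb.1 h1.le, le_trans h2 ha.2⟩
  rw [h1, Real.volume_uIoc, smul_eq_mul, div_eq_inv_mul, ENNReal.ofReal_mul (by norm_num)]
  congr 1
  rw [ENNReal.ofReal_inv_of_pos (by norm_num)]
  norm_num

lemma hside_prob {d : ℕ} (hp : IsProbabilityMeasure (sig d))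
    (hrot : ∀ g : E d ≃ₗᵢ[ℝ] E d, MeasurePreserving (rot g) (sig d) (sig d))
    (hex : ∀ x y : S d, ∃ g : E d ≃ₗᵢ[ℝ] E d, rot g x = y) (x y : S d) :
    ((sig d).prod uni).real {ω | hside ω x = hside ω y} =
      1 - (mproj d (bas d 0 : E d) / 2) * dist x y := by
  have hm : ∀ x : S d, Measurable fun ω : S d × ℝ => hside ω x := by
    intro x
    exact measurable_hside.comp (measurable_id.prodMk measurable_const)
  have hms : MeasurableSet {ω : S d × ℝ | hside ω x ≠ hside ω y} :=
    (measurableSet_eq_fun (hm x) (hm y)).compl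
  have h1 : ((sig d).prod uni) {ω | hside ω x ≠ hside ω y} =
      ENNReal.ofReal ((mproj d (bas d 0 : E d) / 2) * dist x y) := by
    rw [Measure.prod_apply hms]
    have h2 : ∀ u : S d, uni (Prod.mk u ⁻¹' {ω | hside ω x ≠ hside ω y}) =
        ENNReal.ofReal (|inner ℝ (u : E d) ((y : E d) - x)| / 2) := by
      intro u
      have h3 : (Prod.mk u ⁻¹' {ω : S d × ℝ | hside ω x ≠ hside ω y}) =
          Set.uIoc (inner ℝ (u : E d) (x : E d)) (inner ℝ (u : E d) (y : E d)) := by
        ext τ
        exact hside_ne_iff u τ x y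
      rw [h3, uni_uIoc (inner_mem_Icc u x) (inner_mem_Icc u y), inner_sub_right]
    simp_rw [h2]
    rw [← ofReal_integral_eq_lintegral_ofReal]
    · congr 1
      rw [integral_div]
      have h4 := mproj_eq hrot hex (bas d 0) ((y : E d) - x)
      have h5 : dist x y = ‖(y : E d) - x‖ := by
        rw [dist_comm, Subtype.dist_eq, dist_eq_norm]
      rw [h5]
      unfold mproj at h4 ⊢
      rw [h4]
      ring
    · exact (integrable_absinner _).div_const _
    · exact Filter.Eventually.of_forall fun u => by positivity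
  have h6 : {ω : S d × ℝ | hside ω x = hside ω y} = {ω | hside ω x ≠ hside ω y}ᶜ := by
    ext ω; simp
  rw [h6, probReal_compl_eq_one_sub hms, measureReal_def, h1, ENNReal.toReal_ofReal]
  have := mproj_pos hp hrot hex
  positivity

/-- one random hyperplane: the two sides define a random partition of the sphere with
`P(x, y on the same side) = 1 - c |x - y|` -/
theorem hyp_of (d : ℕ) (hp : IsProbabilityMeasure (sig d))
    (hrot : ∀ g : E d ≃ₗᵢ[ℝ] E d, MeasurePreserving (rot g) (sig d) (sig d))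
    (hex : ∀ x y : S d, ∃ g : E d ≃ₗᵢ[ℝ] E d, rot g x = y) :
    ∃ c : ℝ, 0 < c ∧ c ≤ 1/2 ∧ ∃ (Ω : Type) (_ : MeasurableSpace Ω) (μ : Measure Ω)
    (side : Ω → S d → Bool), IsProbabilityMeasure μ ∧
      Measurable (fun p : Ω × S d => side p.1 p.2) ∧
      ∀ x y : S d, μ.real {ω | side ω x = side ω y} = 1 - c * dist x y := by
  refine ⟨mproj d (bas d 0 : E d) / 2, ?_, ?_, S d × ℝ, inferInstance, (sig d).prod uni, hside,
    inferInstance, measurable_hside, hside_prob hp hrot hex⟩
  · have := mproj_pos hp hrot hex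
    positivity
  · have := mproj_le hp (bas d 0)
    linarith

/-- `m` independent random hyperplanes -/
theorem hyp_pow_of (d : ℕ) (hp : IsProbabilityMeasure (sig d))
    (hrot : ∀ g : E d ≃ₗᵢ[ℝ] E d, MeasurePreserving (rot g) (sig d) (sig d))
    (hex : ∀ x y : S d, ∃ g : E d ≃ₗᵢ[ℝ] E d, rot g x = y) :
    ∃ c : ℝ, 0 < c ∧ c ≤ 1/2 ∧ ∀ m : ℕ, ∃ (Ω : Type) (_ : MeasurableSpace Ω)
    (μ : Measure Ω) (cell : Ω → S d → (Fin m → Bool)), IsProbabilityMeasure μ ∧
      Measurable (fun p : Ω × S d => cell p.1 p.2) ∧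
      ∀ x y : S d, μ.real {ω | cell ω x = cell ω y} = (1 - c * dist x y) ^ m := by
  obtain ⟨c, hc0, hc1, Ω, mΩ, μ, side, hμ, hside, hprob⟩ := hyp_of d hp hrot hex
  refine ⟨c, hc0, hc1, fun m => ?_⟩
  refine ⟨Fin m → Ω, inferInstance, Measure.pi fun _ => μ, fun ω x i => side (ω i) x,
    inferInstance, ?_, ?_⟩
  · refine measurable_pi_iff.mpr fun i => ?_
    have : Measurable fun p : (Fin m → Ω) × S d => ((p.1 i, p.2) : Ω × S d) :=
      ((measurable_pi_apply i).comp measurable_fst).prodMk measurable_snd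
    exact hside.comp this
  · intro x y
    have h1 : {ω : Fin m → Ω | (fun i => side (ω i) x) = fun i => side (ω i) y} =
        Set.pi Set.univ fun _ => {ω | side ω x = side ω y} := by
      ext ω
      simp [funext_iff]
    rw [measureReal_def, h1, Measure.pi_pi, ENNReal.toReal_prod]
    simp only [Finset.prod_const, Finset.card_univ, Fintype.card_fin]
    rw [← measureReal_def, hprob]

end Helper23.Riesz
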